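import Mathlib

set_option autoImplicit false

namespace Pool.Agent.Results.MP_5c307f_lc.FlarbLogLower

/-- Binary trees: every node carries a natural number, used only as the name of the node. -/
inductive BT : Type
  | nil : BT
  | node : BT → ℕ → BT → BT

namespace BT

/-- The finite set of (names of) nodes. -/
def nodes : BT → Finset ℕ
  | nil => ∅
  | node l v r => insert v (nodes l ∪ nodes r)

/-- The name of the root, as a set with at most one element. -/
def rootSet : BT → Finset ℕ
  | nil => ∅
  | node _ v _ => {v}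

/-- In-order list of the names. -/
def inorder : BT → List ℕ
  | nil => []
  | node l v r => inorder l ++ v :: inorder r

/-- The set of pairs (parent, left child). -/
def leftRel : BT → Finset (ℕ × ℕ)
  | nil => ∅
  | node l v r => (rootSet l).image (fun u => (v, u)) ∪ (leftRel l ∪ leftRel r)

/-- The set of pairs (parent, right child). -/
def rightRel : BT → Finset (ℕ × ℕ)
  | nil => ∅
  | node l v r => (rootSet r).image (fun u => (v, u)) ∪ (rightRel l ∪ rightRel r)

end BT

open BT

/-- `S` is an anchored subtree of `T`: a set of nodes of `T` which contains the root of `T`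
(if `T` is not empty) and contains with every node its parent. -/
def Anchored (T : BT) (S : Finset ℕ) : Prop :=
  S ⊆ nodes T ∧ rootSet T ⊆ S ∧
    ∀ p c : ℕ, ((p, c) ∈ leftRel T ∨ (p, c) ∈ rightRel T) → c ∈ S → p ∈ S

/-- Cutting a tree along an anchored set `S` of its nodes: if `s₁ < s₂ < ... < s_k` are the nodes of
`S` in in-order and `t₀, ..., t_k` are the (possibly empty) subtrees hanging off `S`
in the gaps before `s₁`, between `s₁` and `s₂`, ..., after `s_k`, the value is
`([(t₀, s₁), ..., (t_{k-1}, s_k)], t_k)`. -/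
def cut (S : Finset ℕ) : BT → List (BT × ℕ) × BT
  | nil => ([], nil)
  | node l v r =>
      if v ∈ S then ((cut S l).1 ++ ((cut S l).2, v) :: (cut S r).1, (cut S r).2)
      else ([], node l v r)

/-- The tree whose rightmost path is `s₁, ..., s_k`, where `s_i` has left subtree `t_{i-1}` and
the right subtree of `s_k` is `g`. -/
def spine : List (BT × ℕ) → BT → BT
  | [], g => g
  | (t, v) :: L, g => node t v (spine L g)

/-- The flarb of the anchored subtree `S` of `T` with new root named `r`: put `T` as the left subtree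
of the new node `r`, and rearrange the nodes of `S ∪ {r}` into a rightmost path, keeping the
in-order and the hanging subtrees. -/
def flarb (r : ℕ) (S : Finset ℕ) (T : BT) : BT :=
  spine (cut (insert r S) (node T r nil)).1 (cut (insert r S) (node T r nil)).2

/-- `T 0, T 1, ..., T n` is a sequence of `n` flarbs starting from the empty tree; the root added by
the `i`-th flarb is named `i`. -/
def IsFlarbSeq (n : ℕ) (T : ℕ → BT) : Prop :=
  T 0 = nil ∧ ∀ i < n, ∃ S : Finset ℕ, Anchored (T i) S ∧ T (i + 1) = flarb (i + 1) S (T i)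

/-- Number of parent/left-child and parent/right-child relationships that differ in `T` and `U`. -/
def cost (T U : BT) : ℕ :=
  (symmDiff (leftRel T) (leftRel U)).card + (symmDiff (rightRel T) (rightRel U)).card

/-- Total cost of the first `n` flarbs of the sequence `T`. -/
def totalCost (n : ℕ) (T : ℕ → BT) : ℕ := ∑ i ∈ Finset.range n, cost (T i) (T (i + 1))

/-- Number of parent/left-child relationships destroyed by the first `n` flarbs of `T`. -/
def leftDestroyed (n : ℕ) (T : ℕ → BT) : ℕ :=
  ∑ i ∈ Finset.range n, (leftRel (T i) \ leftRel (T (i + 1))).card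

/-! ### Sanity checks on the definitions -/

theorem inorder_spine (L : List (BT × ℕ)) (g : BT) :
    inorder (spine L g) = (L.flatMap fun p => inorder p.1 ++ [p.2]) ++ inorder g := by
  induction L with
  | nil => simp [spine]
  | cons p L ih => obtain ⟨t, v⟩ := p; simp [spine, inorder, ih]

theorem inorder_cut (S : Finset ℕ) (T : BT) :
    ((cut S T).1.flatMap fun p => inorder p.1 ++ [p.2]) ++ inorder (cut S T).2 = inorder T := by
  induction T with
  | nil => simp [cut, inorder]
  | node l v r ihl ihr =>
    by_cases h : v ∈ S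
    · simp only [cut, h, if_true, inorder, List.flatMap_append, List.flatMap_cons]
      rw [← ihl, ← ihr]; simp
    · simp [cut, h]

/-- A flarb keeps the in-order of the old nodes and puts the new node last. -/
theorem inorder_flarb (r : ℕ) (S : Finset ℕ) (T : BT) :
    inorder (flarb r S T) = inorder T ++ [r] := by
  unfold flarb
  rw [inorder_spine, inorder_cut]
  simp [inorder]

/-- The names on the rightmost path, from the root downwards. -/
def rightPath : BT → List ℕ
  | nil => []
  | node _ v r => v :: rightPath r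

theorem rightPath_spine (L : List (BT × ℕ)) : rightPath (spine L nil) = L.map Prod.snd := by
  induction L with
  | nil => rfl
  | cons p L ih => obtain ⟨t, v⟩ := p; simp [spine, rightPath, ih]

/-! ### Auxiliary facts -/

/-- Recursive form of being closed under parents. -/
def Closed (S : Finset ℕ) : BT → Prop
  | nil => True
  | node l v r => Closed S l ∧ Closed S r ∧ (v ∉ S → ∀ x ∈ nodes l ∪ nodes r, x ∉ S)

theorem rootSet_sub (T : BT) : rootSet T ⊆ nodes T := by
  cases T <;> simp [rootSet, nodes]

theorem rel_nodes (T : BT) : ∀ p c : ℕ, ((p, c) ∈ leftRel T ∨ (p, c) ∈ rightRel T) →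
    p ∈ nodes T ∧ c ∈ nodes T := by
  induction T with
  | nil => intro p c h; simp [leftRel, rightRel] at h
  | node l v r ihl ihr =>
    intro p c h
    simp only [leftRel, rightRel, Finset.mem_union, Finset.mem_image, Prod.mk.injEq] at h
    simp only [nodes, Finset.mem_insert, Finset.mem_union]
    rcases h with (⟨u, hu, rfl, rfl⟩ | h | h) | (⟨u, hu, rfl, rfl⟩ | h | h)
    · exact ⟨Or.inl rfl, Or.inr (Or.inl (rootSet_sub _ hu))⟩
    · have := ihl p c (Or.inl h); tauto
    · have := ihr p c (Or.inl h); tauto
    · exact ⟨Or.inl rfl, Or.inr (Or.inr (rootSet_sub _ hu))⟩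
    · have := ihl p c (Or.inr h); tauto
    · have := ihr p c (Or.inr h); tauto

theorem Closed.parent {S : Finset ℕ} {T : BT} (h : Closed S T) :
    ∀ p c : ℕ, ((p, c) ∈ leftRel T ∨ (p, c) ∈ rightRel T) → c ∈ S → p ∈ S := by
  induction T with
  | nil => intro p c h; simp [leftRel, rightRel] at h
  | node l v r ihl ihr =>
    obtain ⟨hl, hr, hv⟩ := h
    intro p c hpc hc
    simp only [leftRel, rightRel, Finset.mem_union, Finset.mem_image, Prod.mk.injEq] at hpc
    rcases hpc with (⟨u, hu, rfl, rfl⟩ | h | h) | (⟨u, hu, rfl, rfl⟩ | h | h)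
    · by_contra hp
      exact hv hp _ (Finset.mem_union_left _ (rootSet_sub _ hu)) hc
    · exact ihl hl p c (Or.inl h) hc
    · exact ihr hr p c (Or.inl h) hc
    · by_contra hp
      exact hv hp _ (Finset.mem_union_right _ (rootSet_sub _ hu)) hc
    · exact ihl hl p c (Or.inr h) hc
    · exact ihr hr p c (Or.inr h) hc

theorem closed_of_disjoint {S : Finset ℕ} {T : BT} (h : ∀ x ∈ nodes T, x ∉ S) : Closed S T := by
  induction T with
  | nil => trivial
  | node l v r ihl ihr =>
    refine ⟨ihl fun x hx => h x ?_, ihr fun x hx => h x ?_, fun _ x hx => h x ?_⟩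
    · simp [nodes, hx]
    · simp [nodes, hx]
    · simp only [nodes, Finset.mem_insert]; exact Or.inr hx

theorem closed_spine {S : Finset ℕ} {L : List (BT × ℕ)} {g : BT}
    (hL : ∀ p ∈ L, Closed S p.1 ∧ p.2 ∈ S) (hg : Closed S g) : Closed S (spine L g) := by
  induction L with
  | nil => exact hg
  | cons p L ih =>
    obtain ⟨t, v⟩ := p
    have h1 := hL (t, v) (by simp)
    exact ⟨h1.1, ih fun p hp => hL p (by simp [hp]), fun hv => absurd h1.2 hv⟩

theorem Closed.insert_root {S : Finset ℕ} {T : BT} {r : ℕ} (h : Closed S T) (hr : r ∉ nodes T) :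
    Closed (insert r S) T := by
  induction T with
  | nil => trivial
  | node a v b iha ihb =>
    obtain ⟨ha, hb, hv⟩ := h
    simp only [nodes, Finset.mem_insert, Finset.mem_union, not_or] at hr
    refine ⟨iha ha hr.2.1, ihb hb hr.2.2, fun hvS x hx => ?_⟩
    rw [Finset.mem_insert, not_or] at hvS ⊢
    refine ⟨?_, hv hvS.2 x hx⟩
    rintro rfl
    rcases Finset.mem_union.1 hx with h | h
    · exact hr.2.1 h
    · exact hr.2.2 h

theorem mem_inorder (T : BT) (x : ℕ) : x ∈ inorder T ↔ x ∈ nodes T := by
  induction T with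
  | nil => simp [inorder, nodes]
  | node l v r ihl ihr => simp [inorder, nodes, ihl, ihr]; tauto

theorem cut_names {S : Finset ℕ} {T : BT} (h : Closed S T) :
    (cut S T).1.map Prod.snd = (inorder T).filter (· ∈ S) := by
  induction T with
  | nil => simp [cut, inorder]
  | node l v r ihl ihr =>
    obtain ⟨hl, hr, hv⟩ := h
    by_cases hvS : v ∈ S
    · simp [cut, hvS, inorder, ihl hl, ihr hr]
    · have h1 : (inorder l).filter (· ∈ S) = [] := by
        rw [List.filter_eq_nil_iff]
        intro x hx
        simpa using hv hvS x (Finset.mem_union_left _ ((mem_inorder _ _).1 hx))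
      have h2 : (inorder r).filter (· ∈ S) = [] := by
        rw [List.filter_eq_nil_iff]
        intro x hx
        simpa using hv hvS x (Finset.mem_union_right _ ((mem_inorder _ _).1 hx))
      simp [cut, hvS, inorder, h1, h2]

/-- After the flarb, the rightmost path consists of the nodes of `S ∪ {r}`, in in-order. -/
theorem rightPath_flarb {S : Finset ℕ} {T : BT} {r : ℕ} (h : Closed S T) (hr : r ∉ nodes T) :
    rightPath (flarb r S T) = (inorder T ++ [r]).filter (· ∈ insert r S) := by
  have hc : (cut (insert r S) (node T r nil)).2 = nil := by simp [cut]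
  have h1 := cut_names (S := insert r S) (T := node T r nil)
    ⟨h.insert_root hr, trivial, fun hh => absurd (Finset.mem_insert_self _ _) hh⟩
  unfold flarb
  rw [hc, rightPath_spine, h1]
  simp [inorder]

/-- Renaming all nodes by `+ m`. -/
def shift (m : ℕ) : BT → BT
  | nil => nil
  | node l v r => node (shift m l) (v + m) (shift m r)

/-- The shift on lists of (subtree, name). -/
def shiftL (m : ℕ) (L : List (BT × ℕ)) : List (BT × ℕ) := L.map fun p => (shift m p.1, p.2 + m)

theorem nodes_shift (m : ℕ) (T : BT) : nodes (shift m T) = (nodes T).image (· + m) := by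
  induction T with
  | nil => simp [shift, nodes]
  | node l v r ihl ihr => simp [shift, nodes, ihl, ihr, Finset.image_union, Finset.image_insert]

theorem rootSet_shift (m : ℕ) (T : BT) : rootSet (shift m T) = (rootSet T).image (· + m) := by
  cases T <;> simp [shift, rootSet]

theorem leftRel_shift (m : ℕ) (T : BT) :
    leftRel (shift m T) = (leftRel T).image (fun p => (p.1 + m, p.2 + m)) := by
  induction T with
  | nil => simp [shift, leftRel]
  | node l v r ihl ihr =>
    simp [shift, leftRel, ihl, ihr, Finset.image_union, rootSet_shift, Finset.image_image,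
      Function.comp_def]

theorem spine_shift (m : ℕ) (L : List (BT × ℕ)) (g : BT) :
    shift m (spine L g) = spine (shiftL m L) (shift m g) := by
  induction L with
  | nil => simp [spine, shiftL]
  | cons p L ih =>
    obtain ⟨t, v⟩ := p
    simp only [spine, shift, shiftL, List.map_cons] at ih ⊢
    rw [ih]

theorem spine_append (L M : List (BT × ℕ)) (g : BT) :
    spine (L ++ M) g = spine L (spine M g) := by
  induction L with
  | nil => simp [spine]
  | cons p L ih => obtain ⟨t, v⟩ := p; simp [spine, ih]

/-- Cutting commutes with shifting. -/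
theorem cut_shift {m : ℕ} {S S' : Finset ℕ} {T : BT}
    (h : ∀ x ∈ nodes T, (x + m ∈ S' ↔ x ∈ S)) :
    cut S' (shift m T) = (shiftL m (cut S T).1, shift m (cut S T).2) := by
  induction T with
  | nil => simp [cut, shift, shiftL]
  | node l v r ihl ihr =>
    have hl := ihl fun x hx => h x (by simp [nodes, hx])
    have hr := ihr fun x hx => h x (by simp [nodes, hx])
    have hv := h v (by simp [nodes])
    by_cases hvS : v ∈ S
    · have : v + m ∈ S' := hv.2 hvS
      simp [cut, shift, this, hvS, hl, hr, shiftL]
    · have : v + m ∉ S' := fun hh => hvS (hv.1 hh)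
      simp [cut, shift, this, hvS, shiftL]

theorem cut_nil_of_root {S : Finset ℕ} {T : BT} (h : ∀ x ∈ rootSet T, x ∉ S) :
    cut S T = ([], T) := by
  cases T with
  | nil => rfl
  | node l v r =>
    have : v ∉ S := h v (by simp [rootSet])
    simp [cut, this]

/-- The list of nodes `a, a+1, ..., a+k-1` without left subtrees. -/
def pathL (a k : ℕ) : List (BT × ℕ) := (List.range' a k).map fun i => (nil, i)

theorem pathL_succ (a k : ℕ) : pathL a (k + 1) = (nil, a) :: pathL (a + 1) k := by
  simp [pathL, List.range'_succ]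

theorem pathL_succ' (a k : ℕ) : pathL a (k + 1) = pathL a k ++ [(nil, a + k)] := by
  simp [pathL, List.range'_concat]

theorem mem_pathL {a k : ℕ} {p : BT × ℕ} : p ∈ pathL a k ↔ p.1 = nil ∧ a ≤ p.2 ∧ p.2 < a + k := by
  obtain ⟨t, v⟩ := p
  simp only [pathL, List.mem_map, List.mem_range'_1, Prod.mk.injEq]
  constructor
  · rintro ⟨i, hi, rfl, rfl⟩; exact ⟨rfl, hi⟩
  · rintro ⟨rfl, h⟩; exact ⟨v, h, rfl, rfl⟩

theorem cut_path {S : Finset ℕ} (a k : ℕ) (X : BT) (h : ∀ i, a ≤ i → i < a + k → i ∈ S) :
    cut S (spine (pathL a k) X) = (pathL a k ++ (cut S X).1, (cut S X).2) := by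
  induction k generalizing a with
  | zero => simp [pathL, spine]
  | succ k ih =>
    rw [pathL_succ]
    have ha : a ∈ S := h a le_rfl (by omega)
    have := ih (a + 1) fun i h1 h2 => h i (by omega) (by omega)
    simp [spine, cut, ha, this]

theorem nodes_spine (L : List (BT × ℕ)) (g : BT) :
    ∀ x, x ∈ nodes (spine L g) ↔ (∃ p ∈ L, x = p.2 ∨ x ∈ nodes p.1) ∨ x ∈ nodes g := by
  induction L with
  | nil => intro x; simp [spine]
  | cons p L ih =>
    obtain ⟨t, v⟩ := p
    intro x
    simp only [spine, nodes, Finset.mem_insert, Finset.mem_union, ih, List.mem_cons,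
      exists_eq_or_imp, or_assoc]

theorem nodes_path (a k : ℕ) (X : BT) (x : ℕ) :
    x ∈ nodes (spine (pathL a k) X) ↔ (a ≤ x ∧ x < a + k) ∨ x ∈ nodes X := by
  rw [nodes_spine]
  constructor
  · rintro (⟨p, hp, h⟩ | h)
    · rw [mem_pathL] at hp
      rcases h with rfl | h
      · exact Or.inl hp.2
      · rw [hp.1] at h; simp [nodes] at h
    · exact Or.inr h
  · rintro (h | h)
    · exact Or.inl ⟨(nil, x), mem_pathL.2 ⟨rfl, h⟩, Or.inl rfl⟩
    · exact Or.inr h

theorem leftRel_path (a k : ℕ) (X : BT) : leftRel (spine (pathL a k) X) = leftRel X := by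
  induction k generalizing a with
  | zero => simp [pathL, spine]
  | succ k ih => rw [pathL_succ]; simp [spine, leftRel, rootSet, ih]

theorem rootSet_path_sub (a k : ℕ) : ∀ x ∈ rootSet (spine (pathL a k) nil), x = a ∧ 0 < k := by
  intro x hx
  cases k with
  | zero => simp [pathL, spine, rootSet] at hx
  | succ k => rw [pathL_succ] at hx; simp [spine, rootSet] at hx; simp [hx]

/-- The combination step: a rightmost path `1, ..., k`, followed by the node `m+1` whose left subtree
is the rightmost path `k+1, ..., m` and whose right subtree is `R` shifted by `m`. -/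
def comb (m k : ℕ) (R : BT) : BT :=
  spine (pathL 1 k) (node (spine (pathL (k + 1) (m - k)) nil) (m + 1) (shift m R))

/-- The right subtree of the root. -/
def rightSub : BT → BT
  | nil => nil
  | node _ _ r => r

/-- The sequence of trees, for indices at most `2 ^ j`. -/
def U : ℕ → ℕ → BT
  | 0, _ => node nil 1 nil
  | j + 1, n => if n ≤ 2 ^ j then U j n else comb (2 ^ j) (n - 2 ^ j) (rightSub (U j (n - 2 ^ j)))

/-- What we prove about the trees of one stage. -/
structure Good (j : ℕ) : Prop where
  root : ∀ n, 1 ≤ n → n ≤ 2 ^ j → U j n = node nil 1 (rightSub (U j n))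
  nodes : ∀ n, 1 ≤ n → n ≤ 2 ^ j → ∀ x ∈ BT.nodes (U j n), 1 ≤ x ∧ x ≤ n
  rnodes : ∀ n, 1 ≤ n → n ≤ 2 ^ j → ∀ x ∈ BT.nodes (rightSub (U j n)), 2 ≤ x ∧ x ≤ n
  last : U j (2 ^ j) = spine (pathL 1 (2 ^ j)) nil
  step : ∀ n, 1 ≤ n → n < 2 ^ j → ∃ S : Finset ℕ, S ⊆ BT.nodes (U j n) ∧ 1 ∈ S ∧
    Closed S (U j n) ∧ U j (n + 1) = flarb (n + 1) S (U j n)


theorem U_of_le {j n : ℕ} (h : n ≤ 2 ^ j) : U (j + 1) n = U j n := by
  simp [U, h]

theorem U_add {j k : ℕ} (h : 1 ≤ k) :
    U (j + 1) (2 ^ j + k) = comb (2 ^ j) k (rightSub (U j k)) := by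
  have h1 : ¬ (2 ^ j + k ≤ 2 ^ j) := by omega
  have h2 : 2 ^ j + k - 2 ^ j = k := by omega
  simp only [U, h1, if_false, h2]

theorem comb_root {m k : ℕ} (R : BT) (h : 1 ≤ k) :
    comb m k R = node nil 1 (rightSub (comb m k R)) := by
  obtain ⟨k, rfl⟩ : ∃ k', k = k' + 1 := ⟨k - 1, by omega⟩
  unfold comb
  rw [pathL_succ]
  simp [spine, rightSub]

theorem nodes_comb {m k : ℕ} (R : BT) (hk : k ≤ m) (x : ℕ) :
    x ∈ nodes (comb m k R) ↔ (1 ≤ x ∧ x ≤ m + 1) ∨ ∃ y ∈ nodes R, x = y + m := by
  unfold comb
  rw [nodes_path]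
  simp only [nodes, Finset.mem_insert, Finset.mem_union, nodes_path, nodes_shift,
    Finset.mem_image, Finset.notMem_empty, or_false]
  constructor
  · rintro (h | h | h | ⟨y, hy, rfl⟩)
    · left; omega
    · left; omega
    · left; omega
    · right; exact ⟨y, hy, rfl⟩
  · rintro (h | ⟨y, hy, rfl⟩)
    · by_cases h1 : x < 1 + k
      · left; omega
      · right
        by_cases h2 : x = m + 1
        · left; exact h2
        · right; left; omega
    · right; right; right; exact ⟨y, hy, rfl⟩

/-- One flarb of the combined tree. -/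
theorem flarb_comb {m k : ℕ} {R R' : BT} {S : Finset ℕ} (hk : 1 ≤ k) (hkm : k < m)
    (hR : ∀ x ∈ nodes R, 2 ≤ x ∧ x ≤ k) (hS : ∀ x ∈ S, 1 ≤ x ∧ x ≤ k) (h1 : 1 ∈ S)
    (hstep : node nil 1 R' = flarb (k + 1) S (node nil 1 R)) :
    comb m (k + 1) R' =
      flarb (m + k + 1) (Finset.Icc 1 (k + 1) ∪ S.image (· + m)) (comb m k R) := by
  -- the small flarb
  have h1' : (1 : ℕ) ∈ insert (k + 1) S := Finset.mem_insert_of_mem h1
  have hR' : R' = spine ((cut (insert (k + 1) S) R).1 ++ [((cut (insert (k + 1) S) R).2, k + 1)])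
      nil := by
    have := hstep
    simp only [flarb, cut, Finset.mem_insert_self, if_true, h1', List.nil_append,
      spine, List.cons_append, node.injEq, true_and] at this
    exact this
  -- the big one
  set S'' : Finset ℕ := insert (m + k + 1) (Finset.Icc 1 (k + 1) ∪ S.image (· + m)) with hS''
  have hmem : ∀ x, x ∈ S'' ↔ x = m + k + 1 ∨ (1 ≤ x ∧ x ≤ k + 1) ∨ ∃ y ∈ S, y + m = x := by
    intro x
    simp [hS'']
  have hcutR : cut S'' (shift m R) = (shiftL m (cut (insert (k + 1) S) R).1,
      shift m (cut (insert (k + 1) S) R).2) := by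
    apply cut_shift
    intro x hx
    have hx2 := hR x hx
    rw [hmem, Finset.mem_insert]
    constructor
    · rintro (h | h | ⟨y, hy, h⟩)
      · omega
      · omega
      · right
        have : y = x := by omega
        exact this ▸ hy
    · rintro (h | h)
      · left; omega
      · right; right; exact ⟨x, h, rfl⟩
  have hmid : cut S'' (spine (pathL (k + 1) (m - k)) nil) =
      ([(nil, k + 1)], spine (pathL (k + 1 + 1) (m - (k + 1))) nil) := by
    have e : m - k = (m - (k + 1)) + 1 := by omega
    have hk1 : k + 1 ∈ S'' := (hmem _).2 (Or.inr (Or.inl ⟨by omega, le_rfl⟩))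
    have hno : cut S'' (spine (pathL (k + 1 + 1) (m - (k + 1))) nil) =
        ([], spine (pathL (k + 1 + 1) (m - (k + 1))) nil) := by
      apply cut_nil_of_root
      intro x hx
      have := rootSet_path_sub _ _ x hx
      rw [hmem]
      rintro (h | h | ⟨y, hy, h⟩)
      · omega
      · omega
      · have := hS y hy; omega
    rw [e, pathL_succ]
    simp [spine, cut, hk1, hno]
  have hm1 : m + 1 ∈ S'' := (hmem _).2 (Or.inr (Or.inr ⟨1, h1, by omega⟩))
  have hroot : m + k + 1 ∈ S'' := (hmem _).2 (Or.inl rfl)
  have hcomb : cut S'' (comb m k R) =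
      (pathL 1 (k + 1) ++ (spine (pathL (k + 1 + 1) (m - (k + 1))) nil, m + 1) ::
        shiftL m (cut (insert (k + 1) S) R).1, shift m (cut (insert (k + 1) S) R).2) := by
    unfold comb
    rw [cut_path 1 k _ (fun i h1 h2 => (hmem i).2 (Or.inr (Or.inl ⟨h1, by omega⟩)))]
    simp only [cut, hm1, if_true, hmid, hcutR]
    rw [pathL_succ' 1 k]
    simp [Nat.add_comm]
  unfold flarb
  rw [← hS'']
  simp only [cut, hroot, if_true, hcomb]
  rw [spine_append, spine_append]
  unfold comb
  congr 1
  simp only [spine, node.injEq, true_and]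
  rw [hR', spine_shift]
  simp only [shiftL, List.map_append, List.map_cons, List.map_nil, shift, spine_append, spine]
  rw [show k + 1 + m = m + k + 1 by omega]

theorem closed_shift {m : ℕ} {S S' : Finset ℕ} {T : BT}
    (h : ∀ x ∈ nodes T, (x + m ∈ S' ↔ x ∈ S)) (hT : Closed S T) : Closed S' (shift m T) := by
  induction T with
  | nil => trivial
  | node l v r ihl ihr =>
    obtain ⟨hl, hr, hv⟩ := hT
    refine ⟨ihl (fun x hx => h x (by simp [nodes, hx])) hl,
      ihr (fun x hx => h x (by simp [nodes, hx])) hr, fun hvS x hx => ?_⟩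
    have hvS' : v ∉ S := fun hh => hvS ((h v (by simp [nodes])).2 hh)
    rw [nodes_shift, nodes_shift, ← Finset.image_union, Finset.mem_image] at hx
    obtain ⟨y, hy, rfl⟩ := hx
    have : y ∈ nodes (node l v r) := by
      simp only [nodes, Finset.mem_insert]; exact Or.inr hy
    exact fun hh => hv hvS' y hy ((h y this).1 hh)

theorem closed_comb {m k : ℕ} {R : BT} {S : Finset ℕ} (hk : 1 ≤ k) (hkm : k < m)
    (hR : ∀ x ∈ nodes R, 2 ≤ x ∧ x ≤ k) (hS : ∀ x ∈ S, 1 ≤ x ∧ x ≤ k) (h1 : 1 ∈ S)
    (hcl : Closed S R) :
    Closed (Finset.Icc 1 (k + 1) ∪ S.image (· + m)) (comb m k R) := by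
  have hmem : ∀ x, x ∈ Finset.Icc 1 (k + 1) ∪ S.image (· + m) ↔
      (1 ≤ x ∧ x ≤ k + 1) ∨ ∃ y ∈ S, y + m = x := by
    intro x
    simp
  unfold comb
  apply closed_spine
  · intro p hp
    rw [mem_pathL] at hp
    refine ⟨by rw [hp.1]; trivial, (hmem _).2 (Or.inl ⟨hp.2.1, by omega⟩)⟩
  · refine ⟨?_, ?_, fun h => absurd ((hmem _).2 (Or.inr ⟨1, h1, by omega⟩)) h⟩
    · have e : m - k = (m - (k + 1)) + 1 := by omega
      rw [e, pathL_succ]
      refine ⟨trivial, ?_, fun h => absurd ((hmem _).2 (Or.inl ⟨by omega, le_rfl⟩)) h⟩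
      apply closed_of_disjoint
      intro x hx
      have hx' := (nodes_path _ _ _ _).1 hx
      simp only [nodes, Finset.notMem_empty, or_false] at hx'
      rw [hmem]
      rintro (h | ⟨y, hy, h⟩)
      · omega
      · have := hS y hy; omega
    · apply closed_shift _ hcl
      intro x hx
      have hx2 := hR x hx
      rw [hmem]
      constructor
      · rintro (h | ⟨y, hy, h⟩)
        · omega
        · have : y = x := by omega
          exact this ▸ hy
      · intro h; exact Or.inr ⟨x, h, rfl⟩

theorem good (j : ℕ) : Good j := by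
  induction j with
  | zero =>
    refine ⟨?_, ?_, ?_, ?_, ?_⟩
    · intro n _ _; simp [U, rightSub]
    · intro n h1 h2 x hx
      simp [U, nodes] at hx
      omega
    · intro n h1 h2 x hx
      simp [U, rightSub, nodes] at hx
    · simp [U, pathL, spine]
    · intro n h1 h2
      simp at h2
      omega
  | succ j ih =>
    have hpow : 2 ^ (j + 1) = 2 ^ j + 2 ^ j := by rw [pow_succ]; omega
    have hpos : 1 ≤ 2 ^ j := Nat.one_le_two_pow
    refine ⟨?_, ?_, ?_, ?_, ?_⟩
    · intro n h1 h2
      by_cases h : n ≤ 2 ^ j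
      · rw [U_of_le h]; exact ih.root n h1 h
      · obtain ⟨k, rfl⟩ : ∃ k, n = 2 ^ j + k := ⟨n - 2 ^ j, by omega⟩
        rw [U_add (by omega)]
        exact comb_root _ (by omega)
    · intro n h1 h2 x hx
      by_cases h : n ≤ 2 ^ j
      · rw [U_of_le h] at hx; exact ih.nodes n h1 h x hx
      · obtain ⟨k, rfl⟩ : ∃ k, n = 2 ^ j + k := ⟨n - 2 ^ j, by omega⟩
        rw [U_add (by omega), nodes_comb _ (by omega)] at hx
        rcases hx with hx | ⟨y, hy, rfl⟩
        · omega
        · have := ih.rnodes k (by omega) (by omega) y hy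
          omega
    · intro n h1 h2 x hx
      by_cases h : n ≤ 2 ^ j
      · rw [U_of_le h] at hx; exact ih.rnodes n h1 h x hx
      · obtain ⟨k, rfl⟩ : ∃ k, n = 2 ^ j + k := ⟨n - 2 ^ j, by omega⟩
        obtain ⟨k, rfl⟩ : ∃ k', k = k' + 1 := ⟨k - 1, by omega⟩
        rw [U_add (by omega)] at hx
        unfold comb at hx
        rw [pathL_succ] at hx
        simp only [spine, rightSub] at hx
        rw [nodes_path] at hx
        simp only [nodes, Finset.mem_insert, Finset.mem_union, nodes_path, nodes_shift,
          Finset.mem_image, Finset.notMem_empty, or_false] at hx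
        rcases hx with hx | hx | hx | ⟨y, hy, rfl⟩
        · omega
        · omega
        · omega
        · have := ih.rnodes (k + 1) (by omega) (by omega) y hy
          omega
    · rw [hpow, U_add hpos]
      have hl := ih.last
      obtain ⟨m, hm⟩ : ∃ m, 2 ^ j = m + 1 := ⟨2 ^ j - 1, by omega⟩
      rw [hm] at hl ⊢
      rw [hl, pathL_succ]
      simp only [spine, rightSub, comb, Nat.sub_self]
      have e : pathL 1 (m + 1 + (m + 1)) =
          pathL 1 (m + 1) ++ (nil, m + 1 + 1) :: shiftL (m + 1) (pathL (1 + 1) m) := by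
        simp only [pathL, shiftL, List.map_map]
        rw [← List.range'_append_1, List.map_append]
        congr 1
        rw [List.range'_succ, List.map_cons]
        congr 1
        · congr 1; omega
        · have : (List.range' (1 + (m + 1) + 1) m) =
              (List.range' (1 + 1) m).map (fun i => i + (m + 1)) := by
            have e1 : (fun i : ℕ => i + (m + 1)) = fun i => (m + 1) + i :=
              funext fun i => Nat.add_comm _ _
            rw [e1, List.map_add_range']
            congr 1
            omega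
          rw [this, List.map_map]
          congr 1
      rw [e, spine_append, spine_shift]
      simp [pathL, spine, shift]
    · intro n h1 h2
      by_cases h : n + 1 ≤ 2 ^ j
      · rw [U_of_le h, U_of_le (by omega)]
        exact ih.step n h1 (by omega)
      by_cases hn : n = 2 ^ j
      · -- the boundary step
        subst hn
        rw [U_of_le le_rfl, U_add le_rfl, ih.last]
        obtain ⟨m, hm⟩ : ∃ m, 2 ^ j = m + 1 := ⟨2 ^ j - 1, by omega⟩
        have hU1 : U j 1 = node nil 1 nil := by
          have h3 := ih.root 1 le_rfl (by omega)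
          have h4 : rightSub (U j 1) = nil := by
            cases hh : rightSub (U j 1) with
            | nil => rfl
            | node l v r =>
              have := ih.rnodes 1 le_rfl (by omega) v (by rw [hh]; simp [nodes])
              omega
          rw [h4] at h3; exact h3
        rw [hU1]
        refine ⟨{1}, ?_, by simp, ?_, ?_⟩
        · intro x hx
          rw [Finset.mem_singleton] at hx
          rw [nodes_path]; left; omega
        · rw [hm, pathL_succ]
          refine ⟨trivial, ?_, fun h => absurd (by simp) h⟩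
          apply closed_of_disjoint
          intro x hx
          have hx' := (nodes_path _ _ _ _).1 hx
          simp only [nodes, Finset.notMem_empty, or_false] at hx'
          rw [Finset.mem_singleton]; omega
        · have hcut : cut (insert (2 ^ j + 1) {1}) (spine (pathL 1 (2 ^ j)) nil) =
              ([(nil, 1)], spine (pathL (1 + 1) (2 ^ j - 1)) nil) := by
            have hno : cut (insert (2 ^ j + 1) {1}) (spine (pathL (1 + 1) (2 ^ j - 1)) nil) =
                ([], spine (pathL (1 + 1) (2 ^ j - 1)) nil) := by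
              apply cut_nil_of_root
              intro x hx
              have := rootSet_path_sub _ _ x hx
              simp only [Finset.mem_insert, Finset.mem_singleton]
              omega
            have e : pathL 1 (2 ^ j) = (nil, 1) :: pathL (1 + 1) (2 ^ j - 1) := by
              rw [hm, pathL_succ]; rfl
            rw [e]
            simp [spine, cut, hno]
          unfold flarb
          simp only [cut, Finset.mem_insert_self, if_true, hcut, spine,
            List.cons_append, List.nil_append, comb, rightSub, shift]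
          simp [pathL, spine]
      · obtain ⟨k, rfl⟩ : ∃ k, n = 2 ^ j + k := ⟨n - 2 ^ j, by omega⟩
        have hk1 : 1 ≤ k := by omega
        have hk2 : k < 2 ^ j := by omega
        obtain ⟨S, hSn, hS1, hcl, hfl⟩ := ih.step k hk1 hk2
        have hr := ih.root k hk1 hk2.le
        have hr' := ih.root (k + 1) (by omega) (by omega)
        have hSb : ∀ x ∈ S, 1 ≤ x ∧ x ≤ k := fun x hx => ih.nodes k hk1 hk2.le x (hSn hx)
        have hRb := ih.rnodes k hk1 hk2.le
        have hclR : Closed S (rightSub (U j k)) := by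
          rw [hr] at hcl; exact hcl.2.1
        refine ⟨Finset.Icc 1 (k + 1) ∪ S.image (· + 2 ^ j), ?_, ?_, ?_, ?_⟩
        · intro x hx
          rw [U_add hk1, nodes_comb _ hk2.le]
          simp only [Finset.mem_union, Finset.mem_Icc, Finset.mem_image] at hx
          rcases hx with hx | ⟨y, hy, rfl⟩
          · left; omega
          · have hy' := hSn hy
            rw [hr] at hy'
            simp only [nodes, Finset.mem_insert, Finset.mem_union, Finset.notMem_empty,
              false_or] at hy'
            rcases hy' with rfl | hy'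
            · left; omega
            · right; exact ⟨y, hy', rfl⟩
        · simp
        · rw [U_add hk1]
          exact closed_comb hk1 hk2 hRb hSb hS1 hclR
        · rw [U_add hk1, Nat.add_assoc, U_add (by omega)]
          rw [hr, hr'] at hfl
          have := flarb_comb (m := 2 ^ j) hk1 hk2 hRb hSb hS1 hfl
          rw [this, Nat.add_assoc]

/-- The infinite sequence of trees. -/
def seqT (n : ℕ) : BT := if n = 0 then nil else U n n

theorem U_stable (j d n : ℕ) (h : n ≤ 2 ^ j) : U (j + d) n = U j n := by
  induction d with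
  | zero => rfl
  | succ d ih =>
    rw [← ih, ← Nat.add_assoc, U_of_le]
    exact h.trans (Nat.pow_le_pow_right (by norm_num) (by omega))

theorem seqT_eq {j n : ℕ} (h1 : 1 ≤ n) (h : n ≤ 2 ^ j) : seqT n = U j n := by
  have h0 : n ≠ 0 := by omega
  simp only [seqT, h0, if_false]
  have hn : n ≤ 2 ^ n := Nat.lt_two_pow_self.le
  rcases le_total j n with hj | hj
  · obtain ⟨d, rfl⟩ := Nat.exists_eq_add_of_le hj
    exact U_stable j d _ h
  · obtain ⟨d, rfl⟩ := Nat.exists_eq_add_of_le hj
    exact (U_stable n d n hn).symm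

theorem seqT_step (n : ℕ) : ∃ S : Finset ℕ, Anchored (seqT n) S ∧
    seqT (n + 1) = flarb (n + 1) S (seqT n) := by
  rcases Nat.eq_zero_or_pos n with rfl | hn
  · refine ⟨∅, ⟨by simp, by simp [seqT, rootSet], by simp⟩, ?_⟩
    simp [seqT, U, flarb, cut, spine]
  · have h1 : n < 2 ^ n := Nat.lt_two_pow_self
    obtain ⟨S, hS, hS1, hcl, hfl⟩ := (good n).step n hn h1
    refine ⟨S, ⟨?_, ?_, ?_⟩, ?_⟩
    · rw [seqT_eq hn h1.le]; exact hS
    · rw [seqT_eq hn h1.le, (good n).root n hn h1.le]
      simpa [rootSet] using hS1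
    · rw [seqT_eq hn h1.le]; exact hcl.parent
    · rw [seqT_eq hn h1.le, seqT_eq (j := n) (by omega) h1]; exact hfl

theorem isFlarbSeq_seqT (n : ℕ) : IsFlarbSeq n seqT :=
  ⟨by simp [seqT], fun i _ => seqT_step i⟩

theorem leftRel_comb {m k : ℕ} (R : BT) : leftRel (comb m k R) =
    (rootSet (spine (pathL (k + 1) (m - k)) nil)).image (fun u => (m + 1, u)) ∪
      (leftRel R).image (fun p => (p.1 + m, p.2 + m)) := by
  unfold comb
  rw [leftRel_path]
  simp only [leftRel, leftRel_path, leftRel_shift, Finset.empty_union]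

theorem destroyed_comb {m k : ℕ} {R R' : BT} (hkm : k < m)
    (hR : ∀ x ∈ nodes R, 2 ≤ x) (hR' : ∀ x ∈ nodes R', 2 ≤ x) :
    1 + (leftRel R \ leftRel R').card ≤
      (leftRel (comb m k R) \ leftRel (comb m (k + 1) R')).card := by
  have hinj : Function.Injective (fun p : ℕ × ℕ => (p.1 + m, p.2 + m)) := by
    intro p q h
    simp only [Prod.mk.injEq] at h
    ext <;> omega
  have hsub : insert (m + 1, k + 1)
      ((leftRel R \ leftRel R').image (fun p => (p.1 + m, p.2 + m))) ⊆
      leftRel (comb m k R) \ leftRel (comb m (k + 1) R') := by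
    intro p hp
    rw [Finset.mem_insert] at hp
    rw [Finset.mem_sdiff, leftRel_comb, leftRel_comb]
    rcases hp with rfl | hp
    · constructor
      · apply Finset.mem_union_left
        rw [Finset.mem_image]
        refine ⟨k + 1, ?_, rfl⟩
        have e : m - k = (m - (k + 1)) + 1 := by omega
        rw [e, pathL_succ]
        simp [spine, rootSet]
      · rw [Finset.mem_union, Finset.mem_image, Finset.mem_image]
        rintro (⟨u, hu, h⟩ | ⟨q, hq, h⟩)
        · have := rootSet_path_sub _ _ u hu
          simp only [Prod.mk.injEq, true_and] at h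
          omega
        · have := (rel_nodes R' q.1 q.2 (Or.inl hq)).2
          have := hR' _ this
          simp only [Prod.mk.injEq] at h
          omega
    · rw [Finset.mem_image] at hp
      obtain ⟨q, hq, rfl⟩ := hp
      rw [Finset.mem_sdiff] at hq
      have hq1 := hR _ (rel_nodes R q.1 q.2 (Or.inl hq.1)).1
      have hq2 := hR _ (rel_nodes R q.1 q.2 (Or.inl hq.1)).2
      constructor
      · exact Finset.mem_union_right _ (Finset.mem_image_of_mem _ hq.1)
      · rw [Finset.mem_union, Finset.mem_image, Finset.mem_image]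
        rintro (⟨u, hu, h⟩ | ⟨q', hq', h⟩)
        · simp only [Prod.mk.injEq] at h
          omega
        · have := hinj h
          exact hq.2 (this ▸ hq')
  calc 1 + (leftRel R \ leftRel R').card
      = (insert (m + 1, k + 1)
          ((leftRel R \ leftRel R').image (fun p => (p.1 + m, p.2 + m)))).card := by
        rw [Finset.card_insert_of_notMem, Finset.card_image_of_injective _ hinj, Nat.add_comm]
        rw [Finset.mem_image]
        rintro ⟨q, hq, h⟩
        rw [Finset.mem_sdiff] at hq
        have hq2 := hR _ (rel_nodes R q.1 q.2 (Or.inl hq.1)).2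
        simp only [Prod.mk.injEq] at h
        omega
    _ ≤ _ := Finset.card_le_card hsub

/-- The number of left relationships destroyed at step `i`. -/
def dd (i : ℕ) : ℕ := (leftRel (seqT i) \ leftRel (seqT (i + 1))).card

theorem leftRel_root {T : BT} (h : T = node nil 1 (rightSub T)) :
    leftRel T = leftRel (rightSub T) := by
  rw [h]; simp [leftRel, rootSet, rightSub]

theorem dd_add {j k : ℕ} (hk : 1 ≤ k) (hkm : k < 2 ^ j) : 1 + dd k ≤ dd (2 ^ j + k) := by
  have hpow : 2 ^ (j + 1) = 2 ^ j + 2 ^ j := by rw [pow_succ]; omega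
  have g := good j
  unfold dd
  rw [seqT_eq hk hkm.le, seqT_eq (j := j) (n := k + 1) (by omega) hkm,
    seqT_eq (j := j + 1) (n := 2 ^ j + k) (by omega) (by omega),
    seqT_eq (j := j + 1) (n := 2 ^ j + k + 1) (by omega) (by omega),
    U_add hk, Nat.add_assoc, U_add (by omega),
    leftRel_root (g.root k hk hkm.le), leftRel_root (g.root (k + 1) (by omega) hkm)]
  exact destroyed_comb hkm (fun x hx => (g.rnodes k hk hkm.le x hx).1)
    (fun x hx => (g.rnodes (k + 1) (by omega) hkm x hx).1)

theorem sum_dd (j : ℕ) : j * 2 ^ j + 2 ≤ 2 * (∑ i ∈ Finset.range (2 ^ j), dd i) + 2 * 2 ^ j := by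
  induction j with
  | zero => simp
  | succ j ih =>
    have hpow : 2 ^ (j + 1) = 2 ^ j + 2 ^ j := by rw [pow_succ]; omega
    obtain ⟨m, hm⟩ : ∃ m, 2 ^ j = m + 1 := ⟨2 ^ j - 1, by have := Nat.one_le_two_pow (n := j); omega⟩
    have h1 : (∑ i ∈ Finset.range (2 ^ j), dd i) + m ≤
        ∑ i ∈ Finset.range (2 ^ j), dd (2 ^ j + i) := by
      rw [hm, Finset.sum_range_succ', Finset.sum_range_succ']
      have h0 : dd 0 = 0 := by simp [dd, seqT, leftRel]
      have : ∑ i ∈ Finset.range m, (1 + dd (i + 1)) ≤
          ∑ i ∈ Finset.range m, dd (m + 1 + (i + 1)) := by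
        apply Finset.sum_le_sum
        intro i hi
        rw [Finset.mem_range] at hi
        have := dd_add (j := j) (k := i + 1) (by omega) (by omega)
        rwa [hm] at this
      rw [Finset.sum_add_distrib] at this
      simp only [Finset.sum_const, Finset.card_range, smul_eq_mul, mul_one] at this
      omega
    rw [hpow, Finset.sum_range_add]
    have h2 : (j + 1) * (2 ^ j + 2 ^ j) = 2 * (j * 2 ^ j) + 2 * 2 ^ j := by ring
    rw [h2]
    omega

theorem leftDestroyed_le (n : ℕ) (T : ℕ → BT) : leftDestroyed n T ≤ totalCost n T := by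
  apply Finset.sum_le_sum
  intro i _
  have : leftRel (T i) \ leftRel (T (i + 1)) ⊆ symmDiff (leftRel (T i)) (leftRel (T (i + 1))) := by
    intro x hx
    rw [Finset.mem_symmDiff]
    exact Or.inl (Finset.mem_sdiff.1 hx)
  exact (Finset.card_le_card this).trans (Nat.le_add_right _ _)

/-- There is one infinite sequence of flarbs starting from the empty tree whose first `2 ^ j` flarbs
destroy at least `(j / 2 - 1) * 2 ^ j + 1` parent/left-child relationships, for every `j`; in
particular no constant `C` bounds the total cost of all sequences of `n` flarbs by `C * n`. -/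
theorem result :
    (∃ T : ℕ → BT, (∀ n, IsFlarbSeq n T) ∧
      ∀ j : ℕ, ((j : ℝ) / 2 - 1) * 2 ^ j + 1 ≤ (leftDestroyed (2 ^ j) T : ℝ)) ∧
    ¬ ∃ C : ℝ, ∀ (n : ℕ) (T : ℕ → BT), IsFlarbSeq n T → (totalCost n T : ℝ) ≤ C * n := by
  have key : ∀ j : ℕ, ((j : ℝ) / 2 - 1) * 2 ^ j + 1 ≤ (leftDestroyed (2 ^ j) seqT : ℝ) := by
    intro j
    have h := sum_dd j
    have h' : ((j * 2 ^ j + 2 : ℕ) : ℝ) ≤
        ((2 * (∑ i ∈ Finset.range (2 ^ j), dd i) + 2 * 2 ^ j : ℕ) : ℝ) := by exact_mod_cast h
    have e : leftDestroyed (2 ^ j) seqT = ∑ i ∈ Finset.range (2 ^ j), dd i := rfl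
    rw [e]
    push_cast at h' ⊢
    linarith
  refine ⟨⟨seqT, isFlarbSeq_seqT, key⟩, ?_⟩
  rintro ⟨C, hC⟩
  obtain ⟨j, hj⟩ := exists_nat_gt (2 * (C + 1))
  have h1 := hC (2 ^ j) seqT (isFlarbSeq_seqT _)
  have h2 : (leftDestroyed (2 ^ j) seqT : ℝ) ≤ totalCost (2 ^ j) seqT := by
    exact_mod_cast leftDestroyed_le _ _
  have h3 := key j
  push_cast at h1
  have h4 : (0 : ℝ) < 2 ^ j := by positivity
  nlinarith

end Pool.Agent.Results.MP_5c307f_lc.FlarbLogLower
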